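import Mathlib

/-!
# Whitney tilings of `[0, s)` by `b`-adic intervals and overlap weights (MP_12e063_co)
-/

set_option autoImplicit false

open scoped BigOperators

namespace Pool.Agent.Pst

/-- tail counts: intervals of class `≥ i` cover `[0, b^i * tl b s i)` -/
def tl (b s i : ℕ) : ℕ := if i = 0 then s else s / b ^ i - 1

lemma tl_zero (b s : ℕ) : tl b s 0 = s := by simp [tl]

lemma tl_succ (b s i : ℕ) : tl b s (i + 1) = s / b ^ (i + 1) - 1 := by simp [tl]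

lemma tl_step (b s i : ℕ) (hb : 1 ≤ b) : b * tl b s (i + 1) ≤ tl b s i := by
  rw [tl_succ]
  have h0 : b * (s / b ^ i / b) ≤ s / b ^ i := Nat.mul_div_le _ _
  have h1 : s / b ^ (i + 1) = s / b ^ i / b := by rw [pow_succ, Nat.div_div_eq_div_mul]
  rw [h1, Nat.mul_sub, mul_one]
  by_cases hi : i = 0
  · subst hi
    rw [tl_zero]
    simp only [pow_zero, Nat.div_one] at h0 ⊢
    omega
  · rw [tl, if_neg hi]
    rcases Nat.eq_zero_or_pos (s / b ^ i / b) with h | h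
    · rw [h]; omega
    · omega

lemma tl_mul_le (b s i : ℕ) : tl b s i * b ^ i ≤ s := by
  by_cases hi : i = 0
  · subst hi; simp [tl]
  · rw [tl, if_neg hi]
    exact (Nat.mul_le_mul_right _ (Nat.sub_le _ _)).trans (Nat.div_mul_le_self _ _)

/-- the cells: `(i, k)` is the interval `[k b^i, (k+1) b^i)` -/
def cells (b E s : ℕ) : Finset ((_ : ℕ) × ℕ) :=
  (Finset.range E).sigma fun i => Finset.Ico (b * tl b s (i + 1)) (tl b s i)

lemma mem_cells {b E s : ℕ} {p : (_ : ℕ) × ℕ} :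
    p ∈ cells b E s ↔ p.1 < E ∧ b * tl b s (p.1 + 1) ≤ p.2 ∧ p.2 < tl b s p.1 := by
  simp [cells]

lemma cells_right {b E s : ℕ} {p : (_ : ℕ) × ℕ} (hp : p ∈ cells b E s) :
    (p.2 + 1) * b ^ p.1 ≤ s := by
  rw [mem_cells] at hp
  exact (Nat.mul_le_mul_right _ hp.2.2).trans (tl_mul_le b s p.1)

/-- an interval of class `≥ 1` has a further interval of the same length to its right -/
lemma cells_right' {b E s : ℕ} {p : (_ : ℕ) × ℕ} (hp : p ∈ cells b E s) (h1 : 1 ≤ p.1) :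
    (p.2 + 2) * b ^ p.1 ≤ s := by
  rw [mem_cells] at hp
  have h := hp.2.2
  rw [tl, if_neg (by omega)] at h
  have h2 : p.2 + 2 ≤ s / b ^ p.1 := by omega
  exact (Nat.mul_le_mul_right _ h2).trans (Nat.div_mul_le_self _ _)

/-- an interval of class `i` is at distance `< 2 b^(i+1)` from the right end -/
lemma cells_left {b E s : ℕ} {p : (_ : ℕ) × ℕ} (hb : 1 ≤ b) (hp : p ∈ cells b E s) :
    s < p.2 * b ^ p.1 + 2 * b ^ (p.1 + 1) := by
  rw [mem_cells] at hp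
  have h := hp.2.1
  rw [tl_succ] at h
  have hpos : 0 < b ^ (p.1 + 1) := Nat.pow_pos hb
  have h1 : s < b ^ (p.1 + 1) * (s / b ^ (p.1 + 1) + 1) := Nat.lt_mul_div_succ s hpos
  set q := s / b ^ (p.1 + 1) with hq
  have h2 : b ^ (p.1 + 1) * (q - 1) ≤ p.2 * b ^ p.1 := by
    calc b ^ (p.1 + 1) * (q - 1) = (b * (q - 1)) * b ^ p.1 := by rw [pow_succ]; ring
      _ ≤ p.2 * b ^ p.1 := Nat.mul_le_mul_right _ h
  have h3 : b ^ (p.1 + 1) * (q + 1) ≤ b ^ (p.1 + 1) * (q - 1) + 2 * b ^ (p.1 + 1) := by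
    have : q + 1 ≤ (q - 1) + 2 := by omega
    calc b ^ (p.1 + 1) * (q + 1) ≤ b ^ (p.1 + 1) * ((q - 1) + 2) := Nat.mul_le_mul_left _ this
      _ = b ^ (p.1 + 1) * (q - 1) + 2 * b ^ (p.1 + 1) := by ring
  omega

lemma cells_card (b E s : ℕ) (hb : 1 ≤ b) : (cells b E s).card ≤ E * (2 * b) := by
  rw [cells, Finset.card_sigma]
  refine (Finset.sum_le_card_nsmul _ _ (2 * b) ?_).trans (by simp)
  intro i _
  rw [Nat.card_Ico, tl_succ]
  have h1 : s / b ^ (i + 1) = s / b ^ i / b := by rw [pow_succ, Nat.div_div_eq_div_mul]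
  have h2 : tl b s i ≤ s / b ^ i := by
    by_cases hi : i = 0
    · subst hi; simp [tl]
    · rw [tl, if_neg hi]; exact Nat.sub_le _ _
  rw [h1, Nat.mul_sub, mul_one]
  have h3 : s / b ^ i < b * (s / b ^ i / b + 1) := Nat.lt_mul_div_succ _ (by omega)
  rw [Nat.mul_add, mul_one] at h3
  omega

lemma sum_Ico_tel (f : ℕ → ℤ) {m n : ℕ} (h : m ≤ n) :
    ∑ k ∈ Finset.Ico m n, (f (k + 1) - f k) = f n - f m := by
  induction n, h using Nat.le_induction with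
  | base => simp
  | succ n hn ih => rw [Finset.sum_Ico_succ_top hn, ih]; ring

/-- the stretched cells tile `[0, a s)` -/
lemma sum_ov (b E s a A B : ℕ) (hb : 1 ≤ b) (hE : tl b s E = 0) (hAB : A ≤ B) (hB : B ≤ a * s) :
    ∑ q ∈ cells b E s, (min B (a * ((q.2 + 1) * b ^ q.1)) - max A (a * (q.2 * b ^ q.1))) = B - A := by
  set Phi : ℕ → ℤ := fun t => ((max A (min B t) : ℕ) : ℤ) with hPhi
  have hterm : ∀ q ∈ cells b E s,
      ((min B (a * ((q.2 + 1) * b ^ q.1)) - max A (a * (q.2 * b ^ q.1)) : ℕ) : ℤ)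
        = Phi (a * ((q.2 + 1) * b ^ q.1)) - Phi (a * (q.2 * b ^ q.1)) := by
    intro q _
    have hle : a * (q.2 * b ^ q.1) ≤ a * ((q.2 + 1) * b ^ q.1) :=
      Nat.mul_le_mul_left _ (Nat.mul_le_mul_right _ (Nat.le_succ _))
    simp only [hPhi]
    omega
  have hZ : ((∑ q ∈ cells b E s,
      (min B (a * ((q.2 + 1) * b ^ q.1)) - max A (a * (q.2 * b ^ q.1))) : ℕ) : ℤ) = (B : ℤ) - A := by
    rw [Nat.cast_sum, Finset.sum_congr rfl hterm, cells, Finset.sum_sigma]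
    have hin : ∀ i ∈ Finset.range E,
        ∑ k ∈ Finset.Ico (b * tl b s (i + 1)) (tl b s i),
          (Phi (a * ((k + 1) * b ^ i)) - Phi (a * (k * b ^ i)))
        = Phi (a * (tl b s i * b ^ i)) - Phi (a * (tl b s (i + 1) * b ^ (i + 1))) := by
      intro i _
      rw [sum_Ico_tel (fun k => Phi (a * (k * b ^ i))) (tl_step b s i hb)]
      congr 3
      rw [pow_succ]; ring
    rw [Finset.sum_congr rfl hin,
      Finset.sum_range_sub' (fun i => Phi (a * (tl b s i * b ^ i))) E, tl_zero, hE]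
    simp only [hPhi, pow_zero, mul_one, zero_mul, mul_zero]
    omega
  omega

/-- overlap of the stretched intervals `a * [p.2 b^p.1, ..)` and `a' * [q.2 b^q.1, ..)` -/
def ov (b a a' : ℕ) (p q : (_ : ℕ) × ℕ) : ℕ :=
  min (a * ((p.2 + 1) * b ^ p.1)) (a' * ((q.2 + 1) * b ^ q.1))
    - max (a * (p.2 * b ^ p.1)) (a' * (q.2 * b ^ q.1))

lemma ov_comm (b a a' : ℕ) (p q : (_ : ℕ) × ℕ) : ov b a a' p q = ov b a' a q p := by
  rw [ov, ov, min_comm, max_comm]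

lemma sum_ov_row (b E s s' a a' : ℕ) (hb : 1 ≤ b) (hE : tl b s' E = 0) (hss : a * s = a' * s')
    {p : (_ : ℕ) × ℕ} (hp : p ∈ cells b E s) :
    ∑ q ∈ cells b E s', ov b a a' p q = a * b ^ p.1 := by
  have h1 := sum_ov b E s' a' (a * (p.2 * b ^ p.1)) (a * ((p.2 + 1) * b ^ p.1)) hb hE
    (Nat.mul_le_mul_left _ (Nat.mul_le_mul_right _ (Nat.le_succ _)))
    (by rw [← hss]; exact Nat.mul_le_mul_left _ (cells_right hp))
  rw [← Nat.mul_sub, ← Nat.sub_mul, Nat.add_sub_cancel_left, one_mul] at h1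
  exact h1

lemma ov_le_left (b a a' : ℕ) (p q : (_ : ℕ) × ℕ) : ov b a a' p q ≤ a * b ^ p.1 := by
  have h : a * ((p.2 + 1) * b ^ p.1) = a * (p.2 * b ^ p.1) + a * b ^ p.1 := by ring
  rw [ov]
  omega

lemma ov_le_right (b a a' : ℕ) (p q : (_ : ℕ) × ℕ) : ov b a a' p q ≤ a' * b ^ q.1 := by
  rw [ov_comm]; exact ov_le_left b a' a q p

lemma ov_dvd (b a a' m : ℕ) (p q : (_ : ℕ) × ℕ) (hp : m ≤ p.1) (hq : m ≤ q.1) :
    b ^ m ∣ ov b a a' p q := by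
  have h1 : ∀ x y : ℕ, b ^ m ∣ x * (y * b ^ p.1) := fun x y =>
    Dvd.dvd.mul_left (Dvd.dvd.mul_left (pow_dvd_pow b hp) _) _
  have h2 : ∀ x y : ℕ, b ^ m ∣ x * (y * b ^ q.1) := fun x y =>
    Dvd.dvd.mul_left (Dvd.dvd.mul_left (pow_dvd_pow b hq) _) _
  rw [ov]
  refine Nat.dvd_sub ?_ ?_
  · rcases min_choice (a * ((p.2 + 1) * b ^ p.1)) (a' * ((q.2 + 1) * b ^ q.1)) with h | h <;> rw [h]
    · exact h1 _ _
    · exact h2 _ _
  · rcases max_choice (a * (p.2 * b ^ p.1)) (a' * (q.2 * b ^ q.1)) with h | h <;> rw [h]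
    · exact h1 _ _
    · exact h2 _ _

/-- overlapping intervals have close classes -/
lemma ov_close (b E s s' a a' : ℕ) (hb : 2 ≤ b) (ha : 1 ≤ a) (hab : a ≤ b) (ha' : 1 ≤ a')
    (hss : a * s = a' * s') {p q : (_ : ℕ) × ℕ} (hp : p ∈ cells b E s) (hq : q ∈ cells b E s')
    (h : ov b a a' p q ≠ 0) : q.1 ≤ p.1 + 2 := by
  by_contra hcon
  have hq1 : p.1 + 3 ≤ q.1 := by omega
  have hr := cells_right' hq (by omega)
  have hl := cells_left (by omega) hp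
  have hlt : a * (p.2 * b ^ p.1) < a' * ((q.2 + 1) * b ^ q.1) := by
    rw [ov] at h
    omega
  have h1 : a' * ((q.2 + 2) * b ^ q.1) ≤ a * s := by
    rw [hss]; exact Nat.mul_le_mul_left _ hr
  have h2 : a * s + a ≤ a * (p.2 * b ^ p.1) + a * (2 * b ^ (p.1 + 1)) := by
    calc a * s + a = a * (s + 1) := by ring
      _ ≤ a * (p.2 * b ^ p.1 + 2 * b ^ (p.1 + 1)) := Nat.mul_le_mul_left _ hl
      _ = _ := by ring
  have h3 : a' * ((q.2 + 2) * b ^ q.1) = a' * ((q.2 + 1) * b ^ q.1) + a' * b ^ q.1 := by ring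
  have h4 : a * (2 * b ^ (p.1 + 1)) ≤ a' * b ^ q.1 := by
    calc a * (2 * b ^ (p.1 + 1)) ≤ b * (b * b ^ (p.1 + 1)) := by gcongr
      _ = b ^ (p.1 + 3) := by ring
      _ ≤ b ^ q.1 := Nat.pow_le_pow_right (by omega) hq1
      _ ≤ a' * b ^ q.1 := Nat.le_mul_of_pos_left _ ha'
  omega

/-- the integer weight between two cells, `b = g^2` -/
def wt (g a a' : ℕ) (p q : (_ : ℕ) × ℕ) : ℕ :=
  (g ^ 2 * ov (g ^ 2) a a' p q) / g ^ (p.1 + q.1)

lemma wt_comm (g a a' : ℕ) (p q : (_ : ℕ) × ℕ) : wt g a a' p q = wt g a' a q p := by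
  rw [wt, wt, ov_comm, add_comm p.1 q.1]

lemma wt_mul (g E s s' a a' : ℕ) (hg : 2 ≤ g) (ha : 1 ≤ a) (hab : a ≤ g ^ 2) (ha' : 1 ≤ a')
    (hab' : a' ≤ g ^ 2) (hss : a * s = a' * s') {p q : (_ : ℕ) × ℕ}
    (hp : p ∈ cells (g ^ 2) E s) (hq : q ∈ cells (g ^ 2) E s') :
    wt g a a' p q * g ^ (p.1 + q.1) = g ^ 2 * ov (g ^ 2) a a' p q := by
  have hb : 2 ≤ g ^ 2 := by nlinarith
  refine Nat.div_mul_cancel ?_
  by_cases h : ov (g ^ 2) a a' p q = 0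
  · rw [h, mul_zero]; exact dvd_zero _
  · have h1 := ov_close (g ^ 2) E s s' a a' hb ha hab ha' hss hp hq h
    have h2 := ov_close (g ^ 2) E s' s a' a hb ha' hab' ha hss.symm hq hp
      (by rw [ov_comm]; exact h)
    rcases le_total p.1 q.1 with hle | hle
    · have h3 : g ^ (p.1 + q.1) ∣ g ^ 2 * (g ^ 2) ^ p.1 := by
        rw [← pow_mul, ← pow_add]; exact pow_dvd_pow g (by omega)
      exact h3.trans (Nat.mul_dvd_mul_left _ (ov_dvd _ _ _ _ _ _ le_rfl hle))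
    · have h3 : g ^ (p.1 + q.1) ∣ g ^ 2 * (g ^ 2) ^ q.1 := by
        rw [← pow_mul, ← pow_add]; exact pow_dvd_pow g (by omega)
      exact h3.trans (Nat.mul_dvd_mul_left _ (ov_dvd _ _ _ _ _ _ hle le_rfl))

lemma wt_row (g E s s' a a' : ℕ) (hg : 2 ≤ g) (ha : 1 ≤ a) (hab : a ≤ g ^ 2) (ha' : 1 ≤ a')
    (hab' : a' ≤ g ^ 2) (hss : a * s = a' * s') (hE : tl (g ^ 2) s' E = 0) {p : (_ : ℕ) × ℕ}
    (hp : p ∈ cells (g ^ 2) E s) :
    ∑ q ∈ cells (g ^ 2) E s', wt g a a' p q * g ^ q.1 = g ^ 2 * a * g ^ p.1 := by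
  have hb : 1 ≤ g ^ 2 := by nlinarith
  have hpos : 0 < g ^ p.1 := Nat.pow_pos (by omega)
  refine Nat.eq_of_mul_eq_mul_right hpos ?_
  rw [Finset.sum_mul]
  have h1 : ∀ q ∈ cells (g ^ 2) E s', wt g a a' p q * g ^ q.1 * g ^ p.1
      = g ^ 2 * ov (g ^ 2) a a' p q := by
    intro q hq
    rw [← wt_mul g E s s' a a' hg ha hab ha' hab' hss hp hq, pow_add]; ring
  rw [Finset.sum_congr rfl h1, ← Finset.mul_sum, sum_ov_row (g ^ 2) E s s' a a' hb hE hss hp,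
    ← pow_mul]
  ring

lemma wt_le (g a a' : ℕ) (hab : a ≤ g ^ 2) (hab' : a' ≤ g ^ 2) (hg : 2 ≤ g)
    (p q : (_ : ℕ) × ℕ) : wt g a a' p q ≤ g ^ 2 * g ^ 2 := by
  have hpos : 0 < g ^ (p.1 + q.1) := Nat.pow_pos (by omega)
  rw [wt]
  refine Nat.div_le_of_le_mul ?_
  have h1 : ov (g ^ 2) a a' p q ≤ g ^ 2 * (g ^ 2) ^ p.1 :=
    (ov_le_left _ _ _ _ _).trans (Nat.mul_le_mul_right _ hab)
  have h2 : ov (g ^ 2) a a' p q ≤ g ^ 2 * (g ^ 2) ^ q.1 :=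
    (ov_le_right _ _ _ _ _).trans (Nat.mul_le_mul_right _ hab')
  have h3 : ov (g ^ 2) a a' p q ≤ g ^ 2 * g ^ (p.1 + q.1) := by
    have h4 : ov (g ^ 2) a a' p q ^ 2 ≤ (g ^ 2 * g ^ (p.1 + q.1)) ^ 2 := by
      calc ov (g ^ 2) a a' p q ^ 2 = ov (g ^ 2) a a' p q * ov (g ^ 2) a a' p q := by ring
        _ ≤ (g ^ 2 * (g ^ 2) ^ p.1) * (g ^ 2 * (g ^ 2) ^ q.1) := Nat.mul_le_mul h1 h2
        _ = (g ^ 2 * g ^ (p.1 + q.1)) ^ 2 := by rw [← pow_mul, ← pow_mul, pow_add]; ring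
    exact (Nat.pow_le_pow_iff_left (by norm_num)).mp h4
  calc g ^ 2 * ov (g ^ 2) a a' p q ≤ g ^ 2 * (g ^ 2 * g ^ (p.1 + q.1)) := Nat.mul_le_mul_left _ h3
    _ = g ^ (p.1 + q.1) * (g ^ 2 * g ^ 2) := by ring

end Pool.Agent.Pst
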