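import Pool.Agent.Pst.Lev
import Pool.Agent.Pst.Wh

/-!
# The graph (MP_12e063_co)
-/

set_option autoImplicit false

open scoped BigOperators

namespace Pool.Agent.Pst

lemma tl_top (b s E : ℕ) (h : s < b ^ E) (hE : E ≠ 0) : tl b s E = 0 := by
  rw [tl, if_neg hE, Nat.div_eq_of_lt h]

lemma cells_base_fst {b E : ℕ} (hb : 2 ≤ b) {p : (_ : ℕ) × ℕ} (hp : p ∈ cells b E b) : p.1 = 0 := by
  by_contra h
  have h1 := cells_right' hp (by omega)
  have h2 : b ^ 1 ≤ b ^ p.1 := Nat.pow_le_pow_right (by omega) (by omega)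
  rw [pow_one] at h2
  have h3 : 2 * b ^ p.1 ≤ (p.2 + 2) * b ^ p.1 := Nat.mul_le_mul_right _ (by omega)
  omega

lemma cells_base_card (b E : ℕ) (hb : 2 ≤ b) (hE : 1 ≤ E) : (cells b E b).card = b := by
  rw [cells, Finset.card_sigma, Finset.sum_eq_single 0]
  · rw [Nat.card_Ico, tl_zero, tl_succ, zero_add, pow_one, Nat.div_self (by omega)]
    omega
  · intro i _ hi
    have h1 : b / b ^ i ≤ 1 := by
      have h2 : b ^ 1 ≤ b ^ i := Nat.pow_le_pow_right (by omega) (by omega)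
      rw [pow_one] at h2
      exact Nat.div_le_of_le_mul (by omega)
    rw [Nat.card_Ico, tl, if_neg hi, tl_succ]
    have : b / b ^ i - 1 = 0 := by
      generalize b / b ^ i = z at *
      omega
    omega
  · intro h
    exact absurd (Finset.mem_range.mpr (by omega)) h

/-- counting residues -/
lemma sum_zmod_lt (M B X : ℕ) [NeZero M] (h : B ≤ M) :
    ∑ z : ZMod M, (if z.val < B then X else 0) = B * X := by
  obtain ⟨m, rfl⟩ := Nat.exists_eq_succ_of_ne_zero (NeZero.ne M)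
  show ∑ z : Fin (m + 1), (if (z : ℕ) < B then X else 0) = B * X
  rw [Fin.sum_univ_eq_sum_range (fun k => if k < B then X else 0) (m + 1),
    ← Finset.sum_filter, Finset.sum_const, smul_eq_mul]
  congr 1
  have : (Finset.range (m + 1)).filter (fun k => k < B) = Finset.range B := by
    ext k
    simp only [Finset.mem_filter, Finset.mem_range]
    omega
  rw [this, Finset.card_range]

lemma sum_zmod_sub_left (M B X : ℕ) [NeZero M] (h : B ≤ M) (x : ZMod M) :
    ∑ y : ZMod M, (if (y - x).val < B then X else 0) = B * X := by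
  rw [← sum_zmod_lt M B X h]
  exact Equiv.sum_comp (Equiv.subRight x) (fun z => if z.val < B then X else 0)

lemma sum_zmod_sub_right (M B X : ℕ) [NeZero M] (h : B ≤ M) (y : ZMod M) :
    ∑ x : ZMod M, (if (y - x).val < B then X else 0) = B * X := by
  rw [← sum_zmod_lt M B X h]
  exact Equiv.sum_comp (Equiv.subLeft y) (fun z => if z.val < B then X else 0)

/-- all cells with their level `1 ≤ n < g^2` -/
def allCells (g : ℕ) : Finset ((_ : ℕ) × ((_ : ℕ) × ℕ)) :=
  (Finset.Ico 1 (g ^ 2)).sigma fun n => cells (g ^ 2) (g ^ 2) ((g ^ 2).choose n)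

lemma mem_allCells {g : ℕ} {x : (_ : ℕ) × ((_ : ℕ) × ℕ)} :
    x ∈ allCells g ↔ (1 ≤ x.1 ∧ x.1 < g ^ 2) ∧
      x.2 ∈ cells (g ^ 2) (g ^ 2) ((g ^ 2).choose x.1) := by
  simp [allCells]

lemma sum_level (g m : ℕ) (f : (_ : ℕ) × ((_ : ℕ) × ℕ) → ℕ) :
    ∑ r : allCells g, (if r.1.1 = m then f r.1 else 0)
      = if 1 ≤ m ∧ m < g ^ 2 then
          ∑ p ∈ cells (g ^ 2) (g ^ 2) ((g ^ 2).choose m), f ⟨m, p⟩ else 0 := by
  rw [Finset.sum_coe_sort (allCells g) (fun r => if r.1 = m then f r else 0), allCells,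
    Finset.sum_sigma]
  have h1 : ∀ n ∈ Finset.Ico 1 (g ^ 2),
      ∑ p ∈ cells (g ^ 2) (g ^ 2) ((g ^ 2).choose n), (if n = m then f ⟨n, p⟩ else 0)
      = if n = m then ∑ p ∈ cells (g ^ 2) (g ^ 2) ((g ^ 2).choose n), f ⟨n, p⟩ else 0 := by
    intro n _
    by_cases h : n = m <;> simp [h]
  rw [Finset.sum_congr rfl h1, Finset.sum_ite_eq' (Finset.Ico 1 (g ^ 2)) m]
  simp only [Finset.mem_Ico]

/-- the vertices -/
abbrev Vt (g : ℕ) : Type := Bool ⊕ (allCells g × ZMod (g ^ 2 * g ^ 2))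

/-- the upward relation -/
def Rel (g : ℕ) : Vt g → Vt g → Prop
  | .inl false, .inr r => r.1.1.1 = 1
  | .inr r, .inl true => r.1.1.1 + 1 = g ^ 2
  | .inr r, .inr q => q.1.1.1 = r.1.1.1 + 1 ∧
      (q.2 - r.2).val < wt g (g ^ 2 - r.1.1.1) (r.1.1.1 + 1) r.1.1.2 q.1.1.2
  | _, _ => False

def lv (g : ℕ) : Vt g → ℕ
  | .inl false => 0
  | .inl true => g ^ 2
  | .inr r => r.1.1.1

def omg (g : ℕ) : Vt g → ℕ
  | .inl _ => g ^ 2
  | .inr r => g ^ r.1.1.2.1

lemma choose_lt (g n : ℕ) (hg : 2 ≤ g) : (g ^ 2).choose n < (g ^ 2) ^ (g ^ 2) := by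
  have h1 : (g ^ 2).choose n ≤ 2 ^ (g ^ 2) := Nat.choose_le_two_pow _ _
  have h2 : 2 ^ (g ^ 2) < (g ^ 2) ^ (g ^ 2) :=
    Nat.pow_lt_pow_left (by nlinarith) (by positivity)
  omega

lemma tl_choose (g n : ℕ) (hg : 2 ≤ g) : tl (g ^ 2) ((g ^ 2).choose n) (g ^ 2) = 0 :=
  tl_top _ _ _ (choose_lt g n hg) (by positivity)

lemma choose_rel (g n : ℕ) : (g ^ 2 - n) * (g ^ 2).choose n = (n + 1) * (g ^ 2).choose (n + 1) := by
  have := Nat.choose_succ_right_eq (g ^ 2) n
  linarith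

/-- sums over a level with a constant number of copies -/
lemma sum_copies (g m : ℕ) [NeZero (g ^ 2 * g ^ 2)] (P : (_ : ℕ) × ((_ : ℕ) × ℕ) → Prop)
    [DecidablePred P] (hP : ∀ r ∈ allCells g, P r ↔ r.1 = m) (f : (_ : ℕ) × ((_ : ℕ) × ℕ) → ℕ) :
    ∑ r : allCells g, ∑ _z : ZMod (g ^ 2 * g ^ 2), (if P r.1 then f r.1 else 0)
      = (g ^ 2 * g ^ 2) * (if 1 ≤ m ∧ m < g ^ 2 then
          ∑ p ∈ cells (g ^ 2) (g ^ 2) ((g ^ 2).choose m), f ⟨m, p⟩ else 0) := by
  rw [← sum_level g m f, Finset.mul_sum]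
  refine Finset.sum_congr rfl fun r _ => ?_
  rw [Finset.sum_const, Finset.card_univ, ZMod.card, smul_eq_mul]
  congr 1
  exact if_congr (hP r.1 r.2) rfl rfl

lemma level_one (g : ℕ) (hg : 2 ≤ g) :
    ∑ p ∈ cells (g ^ 2) (g ^ 2) (g ^ 2), g ^ p.1 = g ^ 2 := by
  have hb : 2 ≤ g ^ 2 := by nlinarith
  rw [Finset.sum_congr rfl fun p hp => by rw [cells_base_fst hb hp, pow_zero]]
  rw [Finset.sum_const, smul_eq_mul, mul_one, cells_base_card _ _ hb (by omega)]

lemma sum_inr (g : ℕ) [NeZero (g ^ 2 * g ^ 2)] (F : Vt g → ℕ) :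
    ∑ y, F y = F (.inl false) + F (.inl true)
      + ∑ r : allCells g, ∑ z : ZMod (g ^ 2 * g ^ 2), F (.inr (r, z)) := by
  rw [Fintype.sum_sum_type, Fintype.sum_prod_type, Fintype.sum_bool]
  ring

open Classical in
lemma up_sum (g : ℕ) (hg : 2 ≤ g) [NeZero (g ^ 2 * g ^ 2)] (x : Vt g) :
    ∑ y, (if Rel g x y then omg g y else 0) = g ^ 2 * (g ^ 2 - lv g x) * omg g x := by
  have hb : 2 ≤ g ^ 2 := by nlinarith
  rw [sum_inr]
  rcases x with (_ | _) | ⟨r, a⟩
  · -- bottom vertex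
    have h1 : (if Rel g (.inl false) (.inl false) then omg g (.inl false) else 0) = 0 := if_neg id
    have h2 : (if Rel g (.inl false) (.inl true) then omg g (.inl true) else 0) = 0 := if_neg id
    have h3 : ∑ r : allCells g, ∑ z : ZMod (g ^ 2 * g ^ 2),
        (if Rel g (.inl false) (.inr (r, z)) then omg g (.inr (r, z)) else 0)
        = (g ^ 2 * g ^ 2) * (if 1 ≤ 1 ∧ 1 < g ^ 2 then
          ∑ p ∈ cells (g ^ 2) (g ^ 2) ((g ^ 2).choose 1), g ^ p.1 else 0) := by
      rw [← sum_copies g 1 (fun r => r.1 = 1) (fun _ _ => Iff.rfl) (fun r => g ^ r.2.1)]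
      exact Finset.sum_congr rfl fun r _ => Finset.sum_congr rfl fun z _ => if_congr Iff.rfl rfl rfl
    rw [h1, h2, h3, if_pos ⟨le_rfl, by omega⟩, Nat.choose_one_right, level_one g hg]
    simp only [lv, omg]
    rw [Nat.sub_zero]
    ring
  · -- top vertex
    have h1 : (if Rel g (.inl true) (.inl false) then omg g (.inl false) else 0) = 0 := if_neg id
    have h2 : (if Rel g (.inl true) (.inl true) then omg g (.inl true) else 0) = 0 := if_neg id
    have h3 : ∑ r : allCells g, ∑ z : ZMod (g ^ 2 * g ^ 2),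
        (if Rel g (.inl true) (.inr (r, z)) then omg g (.inr (r, z)) else 0) = 0 :=
      Finset.sum_eq_zero fun r _ => Finset.sum_eq_zero fun z _ => if_neg id
    rw [h1, h2, h3]
    simp only [lv, omg]
    rw [Nat.sub_self]
    ring
  · -- inner vertex
    obtain ⟨⟨n, p⟩, hr⟩ := r
    have hm := mem_allCells.mp hr
    simp only at hm
    obtain ⟨⟨hn1, hn2⟩, hp⟩ := hm
    have h1 : (if Rel g (.inr (⟨⟨n, p⟩, hr⟩, a)) (.inl false) then omg g (.inl false) else 0) = 0 :=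
      if_neg id
    have h2 : (if Rel g (.inr (⟨⟨n, p⟩, hr⟩, a)) (.inl true) then omg g (.inl true) else 0)
        = if n + 1 = g ^ 2 then g ^ 2 else 0 := if_congr Iff.rfl rfl rfl
    have hwt : ∀ q, wt g (g ^ 2 - n) (n + 1) p q ≤ g ^ 2 * g ^ 2 := fun q =>
      wt_le g _ _ (Nat.sub_le _ _) (by omega) hg p q
    have h3 : ∑ r : allCells g, ∑ z : ZMod (g ^ 2 * g ^ 2),
        (if Rel g (.inr (⟨⟨n, p⟩, hr⟩, a)) (.inr (r, z)) then omg g (.inr (r, z)) else 0)
        = if 1 ≤ n + 1 ∧ n + 1 < g ^ 2 then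
          ∑ q ∈ cells (g ^ 2) (g ^ 2) ((g ^ 2).choose (n + 1)),
            wt g (g ^ 2 - n) (n + 1) p q * g ^ q.1 else 0 := by
      rw [← sum_level g (n + 1) (fun r => wt g (g ^ 2 - n) (n + 1) p r.2 * g ^ r.2.1)]
      refine Finset.sum_congr rfl fun r _ => ?_
      by_cases hrn : r.1.1 = n + 1
      · rw [if_pos hrn, ← sum_zmod_sub_left (g ^ 2 * g ^ 2) _ (g ^ r.1.2.1) (hwt r.1.2) a]
        exact Finset.sum_congr rfl fun z _ => if_congr ⟨fun h => h.2, fun h => ⟨hrn, h⟩⟩ rfl rfl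
      · rw [if_neg hrn]
        exact Finset.sum_eq_zero fun z _ => if_neg fun h => hrn h.1
    rw [h1, h2, h3]
    simp only [lv, omg]
    by_cases hlast : n + 1 = g ^ 2
    · rw [if_pos hlast, if_neg (by omega)]
      have hch : (g ^ 2).choose n = g ^ 2 := by
        have h5 : n = g ^ 2 - 1 := by omega
        rw [h5, Nat.choose_symm (by omega : 1 ≤ g ^ 2), Nat.choose_one_right]
      rw [hch] at hp
      have h6 : g ^ 2 - n = 1 := by omega
      rw [cells_base_fst hb hp, h6]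
      ring
    · rw [if_neg hlast, if_pos (by omega)]
      rw [wt_row g (g ^ 2) ((g ^ 2).choose n) ((g ^ 2).choose (n + 1)) (g ^ 2 - n) (n + 1) hg
        (by omega) (Nat.sub_le _ _) (by omega) (by omega) (choose_rel g n)
        (tl_choose g (n + 1) hg) hp]
      ring

open Classical in
lemma down_sum (g : ℕ) (hg : 2 ≤ g) [NeZero (g ^ 2 * g ^ 2)] (x : Vt g) :
    ∑ y, (if Rel g y x then omg g y else 0) = g ^ 2 * lv g x * omg g x := by
  have hb : 2 ≤ g ^ 2 := by nlinarith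
  rw [sum_inr]
  rcases x with (_ | _) | ⟨r, a⟩
  · -- bottom vertex
    have h1 : (if Rel g (.inl false) (.inl false) then omg g (.inl false) else 0) = 0 := if_neg id
    have h2 : (if Rel g (.inl true) (.inl false) then omg g (.inl true) else 0) = 0 := if_neg id
    have h3 : ∑ r : allCells g, ∑ z : ZMod (g ^ 2 * g ^ 2),
        (if Rel g (.inr (r, z)) (.inl false) then omg g (.inr (r, z)) else 0) = 0 :=
      Finset.sum_eq_zero fun r _ => Finset.sum_eq_zero fun z _ => if_neg id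
    rw [h1, h2, h3]
    simp only [lv, omg]
    ring
  · -- top vertex
    have h1 : (if Rel g (.inl false) (.inl true) then omg g (.inl false) else 0) = 0 := if_neg id
    have h2 : (if Rel g (.inl true) (.inl true) then omg g (.inl true) else 0) = 0 := if_neg id
    have h3 : ∑ r : allCells g, ∑ z : ZMod (g ^ 2 * g ^ 2),
        (if Rel g (.inr (r, z)) (.inl true) then omg g (.inr (r, z)) else 0)
        = (g ^ 2 * g ^ 2) * (if 1 ≤ g ^ 2 - 1 ∧ g ^ 2 - 1 < g ^ 2 then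
          ∑ p ∈ cells (g ^ 2) (g ^ 2) ((g ^ 2).choose (g ^ 2 - 1)), g ^ p.1 else 0) := by
      rw [← sum_copies g (g ^ 2 - 1) (fun r => r.1 + 1 = g ^ 2)
        (fun _ _ => by omega) (fun r => g ^ r.2.1)]
      exact Finset.sum_congr rfl fun r _ => Finset.sum_congr rfl fun z _ => if_congr Iff.rfl rfl rfl
    rw [h1, h2, h3, if_pos ⟨by omega, by omega⟩, Nat.choose_symm (by omega : 1 ≤ g ^ 2),
      Nat.choose_one_right, level_one g hg]
    simp only [lv, omg]
    ring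
  · -- inner vertex
    obtain ⟨⟨n, p⟩, hr⟩ := r
    have hm := mem_allCells.mp hr
    simp only at hm
    obtain ⟨⟨hn1, hn2⟩, hp⟩ := hm
    have h1 : (if Rel g (.inl false) (.inr (⟨⟨n, p⟩, hr⟩, a)) then omg g (.inl false) else 0)
        = if n = 1 then g ^ 2 else 0 := if_congr Iff.rfl rfl rfl
    have h2 : (if Rel g (.inl true) (.inr (⟨⟨n, p⟩, hr⟩, a)) then omg g (.inl true) else 0) = 0 :=
      if_neg id
    have h3 : ∑ r : allCells g, ∑ z : ZMod (g ^ 2 * g ^ 2),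
        (if Rel g (.inr (r, z)) (.inr (⟨⟨n, p⟩, hr⟩, a)) then omg g (.inr (r, z)) else 0)
        = if 1 ≤ n - 1 ∧ n - 1 < g ^ 2 then
          ∑ q ∈ cells (g ^ 2) (g ^ 2) ((g ^ 2).choose (n - 1)),
            wt g (g ^ 2 - (n - 1)) (n - 1 + 1) q p * g ^ q.1 else 0 := by
      rw [← sum_level g (n - 1)
        (fun r => wt g (g ^ 2 - (n - 1)) (n - 1 + 1) r.2 p * g ^ r.2.1)]
      refine Finset.sum_congr rfl fun r _ => ?_
      have hr1 := (mem_allCells.mp r.2).1
      by_cases hrn : r.1.1 = n - 1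
      · rw [if_pos hrn, ← sum_zmod_sub_right (g ^ 2 * g ^ 2) _ (g ^ r.1.2.1)
          (wt_le g _ _ (Nat.sub_le _ _) (by omega) hg r.1.2 p) a]
        refine Finset.sum_congr rfl fun z _ => if_congr ?_ rfl rfl
        show (n = r.1.1 + 1 ∧ (a - z).val < wt g (g ^ 2 - r.1.1) (r.1.1 + 1) r.1.2 p) ↔ _
        rw [hrn]
        exact ⟨fun h => h.2, fun h => ⟨by omega, h⟩⟩
      · rw [if_neg hrn]
        refine Finset.sum_eq_zero fun z _ => if_neg fun h => hrn ?_
        have h' : n = r.1.1 + 1 := h.1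
        omega
    rw [h1, h2, h3]
    simp only [lv, omg]
    by_cases hfirst : n = 1
    · subst hfirst
      rw [if_pos rfl, if_neg (by omega)]
      rw [Nat.choose_one_right] at hp
      rw [cells_base_fst hb hp]
      ring
    · rw [if_neg hfirst, if_pos (by omega)]
      have hn' : n - 1 + 1 = n := by omega
      have h4 : ∀ q ∈ cells (g ^ 2) (g ^ 2) ((g ^ 2).choose (n - 1)),
          wt g (g ^ 2 - (n - 1)) (n - 1 + 1) q p * g ^ q.1
          = wt g (n - 1 + 1) (g ^ 2 - (n - 1)) p q * g ^ q.1 := by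
        intro q _
        rw [wt_comm]
      have hrel := choose_rel g (n - 1)
      rw [Finset.sum_congr rfl h4, hn']
      rw [hn'] at hrel
      rw [wt_row g (g ^ 2) ((g ^ 2).choose n) ((g ^ 2).choose (n - 1)) n (g ^ 2 - (n - 1)) hg
        (by omega) (by omega) (by omega) (Nat.sub_le _ _) hrel.symm
        (tl_choose g (n - 1) hg) hp]
      ring

/-- the levelled graph -/
noncomputable def lvl (g : ℕ) (hg : 2 ≤ g) [NeZero (g ^ 2 * g ^ 2)] : Lvl (Vt g) (g ^ 2) (g ^ 2) where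
  R := Rel g
  decR := Classical.decRel _
  lev := lv g
  om := omg g
  u := .inl false
  v := .inl true
  hR := by
    intro x y h
    rcases x with (_ | _) | ⟨r, a⟩ <;> rcases y with (_ | _) | ⟨q, b⟩ <;>
      first
        | exact h.elim
        | exact h.symm
        | exact h
        | exact h.1
  hle := by
    intro x
    rcases x with (_ | _) | ⟨r, a⟩
    · exact Nat.zero_le _
    · exact le_rfl
    · exact (mem_allCells.mp r.2).1.2.le
  hom := by
    intro x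
    rcases x with _ | ⟨r, a⟩
    · exact Nat.pow_pos (by omega)
    · exact Nat.pow_pos (by omega)
  up := fun x => by
    rw [← up_sum g hg x]
  down := fun x => by
    rw [← down_sum g hg x]
  hu := rfl
  hu' := by
    intro x h
    rcases x with (_ | _) | ⟨r, a⟩
    · rfl
    · have h' : g ^ 2 = 0 := h
      have : 0 < g ^ 2 := Nat.pow_pos (by omega)
      omega
    · have h' : r.1.1 = 0 := h
      have := (mem_allCells.mp r.2).1.1
      omega
  hv := rfl
  hv' := by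
    intro x h
    rcases x with (_ | _) | ⟨r, a⟩
    · have h' : 0 = g ^ 2 := h
      have : 0 < g ^ 2 := Nat.pow_pos (by omega)
      omega
    · rfl
    · have h' : r.1.1 = g ^ 2 := h
      have := (mem_allCells.mp r.2).1.2
      omega
  huv := rfl

lemma card_Vt (g : ℕ) [NeZero (g ^ 2 * g ^ 2)] :
    Fintype.card (Vt g) = 2 + (allCells g).card * (g ^ 2 * g ^ 2) := by
  rw [Fintype.card_sum, Fintype.card_bool, Fintype.card_prod, ZMod.card, Fintype.card_coe]

lemma allCells_card (g : ℕ) (hg : 2 ≤ g) :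
    (allCells g).card ≤ (g ^ 2 - 1) * (g ^ 2 * (2 * g ^ 2)) := by
  rw [allCells, Finset.card_sigma]
  refine (Finset.sum_le_card_nsmul _ _ (g ^ 2 * (2 * g ^ 2)) ?_).trans (by simp)
  intro n _
  exact cells_card _ _ _ (Nat.pow_pos (by omega))

lemma allCells_card' (g : ℕ) (hg : 2 ≤ g) : g ^ 2 ≤ (allCells g).card := by
  have hb : 2 ≤ g ^ 2 := by nlinarith
  rw [allCells, Finset.card_sigma]
  have h1 : (cells (g ^ 2) (g ^ 2) ((g ^ 2).choose 1)).card ≤
      ∑ n ∈ Finset.Ico 1 (g ^ 2), (cells (g ^ 2) (g ^ 2) ((g ^ 2).choose n)).card :=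
    Finset.single_le_sum (f := fun n => (cells (g ^ 2) (g ^ 2) ((g ^ 2).choose n)).card)
      (fun _ _ => Nat.zero_le _) (Finset.mem_Ico.mpr ⟨le_rfl, by omega⟩)
  rw [Nat.choose_one_right, cells_base_card _ _ hb (by omega)] at h1
  exact h1

/-- the main theorem for one `g` -/
theorem family (g : ℕ) (hg : 2 ≤ g) :
    ∃ (n : ℕ) (G : SimpleGraph (Fin n)) (_ : DecidableRel G.Adj),
      g < n ∧ G.Connected ∧ n ≤ 2 * G.diam ^ 5 ∧
      ∃ (u v : Fin n) (t : ℝ), u ≠ v ∧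
        ‖∑' m : ℕ, ((-(t : ℂ) * Complex.I) ^ m / (m.factorial : ℂ)) *
            ((G.adjMatrix ℂ) ^ m) u v‖ = 1 := by
  have hpos : 0 < g ^ 2 := Nat.pow_pos (by omega)
  have : NeZero (g ^ 2 * g ^ 2) := ⟨(Nat.mul_pos hpos hpos).ne'⟩
  have hcard : Fintype.card (Vt g) ≤ 2 * (g ^ 2) ^ 5 := by
    rw [card_Vt]
    have h1 := allCells_card g hg
    have h2 : (allCells g).card * (g ^ 2 * g ^ 2) + 2 * (g ^ 2) ^ 4 ≤ 2 * (g ^ 2) ^ 5 := by
      calc (allCells g).card * (g ^ 2 * g ^ 2) + 2 * (g ^ 2) ^ 4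
          ≤ ((g ^ 2 - 1) * (g ^ 2 * (2 * g ^ 2))) * (g ^ 2 * g ^ 2) + 2 * (g ^ 2) ^ 4 :=
            Nat.add_le_add_right (Nat.mul_le_mul_right _ h1) _
        _ = 2 * (g ^ 2) ^ 4 * ((g ^ 2 - 1) + 1) := by ring
        _ = 2 * (g ^ 2) ^ 5 := by rw [Nat.sub_add_cancel hpos]; ring
    have h3 : 1 ≤ (g ^ 2) ^ 4 := Nat.one_le_iff_ne_zero.mpr (by positivity)
    omega
  have hlow : g < Fintype.card (Vt g) := by
    rw [card_Vt]
    have h1 := allCells_card' g hg
    have h2 : g ≤ g ^ 2 := by nlinarith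
    have h3 : (allCells g).card * 1 ≤ (allCells g).card * (g ^ 2 * g ^ 2) :=
      Nat.mul_le_mul_left _ (Nat.mul_pos hpos hpos)
    omega
  obtain ⟨G, inst, h1, h2, h3⟩ := Lvl.main (lvl g hg) hpos hpos 2 5 hcard
  exact ⟨_, G, inst, hlow, h1, h2, h3⟩

end Pool.Agent.Pst
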