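import Pool.Agent.Pst.Asm

/-!
# Distance and diameter of the levelled graphs, and the matrix exponential (MP_12e063_co)
-/

set_option autoImplicit false

open scoped BigOperators Matrix

namespace Pool.Agent.Pst

section matrix

variable {V : Type} [Fintype V] [DecidableEq V]

attribute [local instance] Matrix.linftyOpNormedRing Matrix.linftyOpNormedAlgebra in
/-- the exponential of a matrix acts as the exponential of its operator -/
lemma exp_mulVec (A : Matrix V V ℂ) (s : ℂ) (x : V → ℂ) :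
    (NormedSpace.exp (s • A)) *ᵥ x = (NormedSpace.exp (s • opL A)) x := by
  have h1 := NormedSpace.exp_series_hasSum_exp' (𝕂 := ℂ) (s • A)
  have h2 := NormedSpace.exp_series_hasSum_exp' (𝕂 := ℂ) (s • opL A)
  let L : Matrix V V ℂ →L[ℂ] (V → ℂ) := LinearMap.toContinuousLinearMap
    { toFun := fun M => M *ᵥ x
      map_add' := fun M N => Matrix.add_mulVec M N x
      map_smul' := fun c M => Matrix.smul_mulVec c M x }
  have h3 := L.hasSum h1
  have h4 := (ContinuousLinearMap.apply ℂ (V → ℂ) x).hasSum h2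
  have h5 : ∀ m : ℕ, L ((m.factorial : ℂ)⁻¹ • (s • A) ^ m)
      = ContinuousLinearMap.apply ℂ (V → ℂ) x ((m.factorial : ℂ)⁻¹ • (s • opL A) ^ m) := by
    intro m
    have h7 : s • opL A = opL (s • A) := by
      ext y
      rw [opL_apply, smul_apply, opL_apply, Matrix.smul_mulVec]
    show ((m.factorial : ℂ)⁻¹ • (s • A) ^ m) *ᵥ x = ((m.factorial : ℂ)⁻¹ • (s • opL A) ^ m) x
    rw [h7, Matrix.smul_mulVec, smul_apply, opL_pow_apply]
  have h6 := h3.tsum_eq
  rw [tsum_congr h5] at h6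
  exact h6.symm.trans h4.tsum_eq

/-- the transfer, vector form -/
theorem exp_transfer (A : Matrix V V ℂ) (D : ℕ) (c : ℝ) (hc : 0 < c) (w : ℕ → V → ℂ)
    (h0 : A *ᵥ w 0 = (c : ℂ) • w 1)
    (hS : ∀ n, n < D → A *ᵥ w (n + 1)
      = ((c : ℂ) * ((n : ℂ) + 2)) • w (n + 2) + ((c : ℂ) * ((D : ℂ) - (n : ℂ))) • w n)
    (hD : w (D + 1) = 0) (u v : V) (κ : ℂ) (hκ : κ ≠ 0)
    (hu : w 0 = κ • Pi.single u (1 : ℂ)) (hv : w D = κ • Pi.single v (1 : ℂ)) :
    (NormedSpace.exp ((Complex.I * ((Real.pi / (2 * c) : ℝ) : ℂ)) • A)) *ᵥ (Pi.single v (1 : ℂ))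
      = Complex.I ^ D • Pi.single u (1 : ℂ) := by
  set s : ℂ := Complex.I * ((Real.pi / (2 * c) : ℝ) : ℂ) with hs
  have hcC : (c : ℂ) ≠ 0 := by exact_mod_cast hc.ne'
  have hcs : (c : ℂ) * (-s) = -((Real.pi / 2 : ℂ) * Complex.I) := by
    rw [hs]; push_cast; field_simp
  have key := exp_phi (opL A) D (c : ℂ) w (by rw [opL_apply]; exact h0)
    (fun n hn => by rw [opL_apply]; exact hS n hn) hD s
  have hcosh : Complex.cosh ((c : ℂ) * (-s)) = 0 := by
    rw [hcs, Complex.cosh_neg, Complex.cosh_mul_I, Complex.cos_pi_div_two]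
  have hsinh : Complex.sinh ((c : ℂ) * (-s)) = -Complex.I := by
    rw [hcs, Complex.sinh_neg, Complex.sinh_mul_I, Complex.sin_pi_div_two, one_mul]
  have hphi : phi D (c : ℂ) w (-s) = ((-Complex.I) ^ D * κ) • Pi.single v (1 : ℂ) := by
    rw [phi, hcosh, hsinh, Finset.sum_range_succ, Finset.sum_eq_zero, zero_add, Nat.sub_self,
      pow_zero, one_mul, hv, smul_smul]
    intro n hn
    have : D - n ≠ 0 := by have := Finset.mem_range.mp hn; omega
    rw [zero_pow this, zero_mul, zero_smul]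
  rw [hphi, map_smul, hu] at key
  rw [exp_mulVec]
  have h5 : Complex.I ^ D * (-Complex.I) ^ D = 1 := by
    rw [← mul_pow]
    simp
  have h6 : κ • (NormedSpace.exp (s • opL A)) (Pi.single v (1 : ℂ))
      = κ • (Complex.I ^ D • Pi.single u (1 : ℂ)) := by
    calc κ • (NormedSpace.exp (s • opL A)) (Pi.single v (1 : ℂ))
        = Complex.I ^ D • (((-Complex.I) ^ D * κ) •
            (NormedSpace.exp (s • opL A)) (Pi.single v (1 : ℂ))) := by
          rw [smul_smul, ← mul_assoc, h5, one_mul]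
      _ = κ • (Complex.I ^ D • Pi.single u (1 : ℂ)) := by
          rw [key, smul_comm]
  exact smul_right_injective _ hκ h6

end matrix

namespace Lvl

variable {V : Type} [Fintype V] {D c : ℕ} (L : Lvl V D c)

lemma exists_above (hc : 0 < c) (x : V) (hx : L.lev x ≠ D) :
    ∃ y, L.R x y := by
  by_contra hcon
  push Not at hcon
  have h := L.up x
  rw [Finset.sum_eq_zero fun y _ => if_neg (hcon y)] at h
  have h1 := L.hle x
  have : 0 < c * (D - L.lev x) * L.om x :=
    Nat.mul_pos (Nat.mul_pos hc (by omega)) (L.hom x)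
  omega

lemma walk_down (hc : 0 < c) (x : V) : ∃ p : L.G.Walk L.u x, p.length = L.lev x := by
  induction hn : L.lev x generalizing x with
  | zero =>
    rw [L.hu' x hn]
    exact ⟨SimpleGraph.Walk.nil, rfl⟩
  | succ n ih =>
    obtain ⟨y, hy, _⟩ := L.exists_below hc x (by omega)
    have h1 := L.hR _ _ hy
    obtain ⟨p, hp⟩ := ih y (by omega)
    exact ⟨p.concat ((L.adj_iff y x).mpr (Or.inl hy)), by rw [SimpleGraph.Walk.length_concat, hp]⟩

lemma walk_up (hc : 0 < c) (x : V) : ∃ p : L.G.Walk L.v x, p.length = D - L.lev x := by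
  induction hn : D - L.lev x generalizing x with
  | zero =>
    have := L.hle x
    rw [L.hv' x (by omega)]
    exact ⟨SimpleGraph.Walk.nil, rfl⟩
  | succ n ih =>
    obtain ⟨y, hy⟩ := L.exists_above hc x (by omega)
    have h1 := L.hR _ _ hy
    obtain ⟨p, hp⟩ := ih y (by omega)
    exact ⟨p.concat ((L.adj_iff y x).mpr (Or.inr hy)), by rw [SimpleGraph.Walk.length_concat, hp]⟩

lemma dist_le (hc : 0 < c) (x y : V) : L.G.dist x y ≤ D := by
  obtain ⟨p, hp⟩ := L.walk_down hc x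
  obtain ⟨q, hq⟩ := L.walk_down hc y
  obtain ⟨p', hp'⟩ := L.walk_up hc x
  obtain ⟨q', hq'⟩ := L.walk_up hc y
  have h1 := SimpleGraph.dist_le (p.reverse.append q)
  have h2 := SimpleGraph.dist_le (p'.reverse.append q')
  rw [SimpleGraph.Walk.length_append, SimpleGraph.Walk.length_reverse] at h1 h2
  have hx := L.hle x
  have hy := L.hle y
  omega

lemma diam_eq (hc : 0 < c) : L.G.diam = D := by
  have : Nonempty V := ⟨L.u⟩
  refine le_antisymm ?_ (L.le_diam hc)
  obtain ⟨x, y, hxy⟩ := L.G.exists_dist_eq_diam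
  rw [← hxy]
  exact L.dist_le hc x y

lemma dist_eq (hc : 0 < c) : L.G.dist L.u L.v = D :=
  le_antisymm (L.dist_le hc _ _) (L.le_dist hc)

theorem exp_adj (hc : 0 < c) [DecidableEq V] [DecidableRel L.G.Adj] :
    (NormedSpace.exp ((Complex.I * ((Real.pi / (2 * (c : ℝ)) : ℝ) : ℂ)) • L.G.adjMatrix ℂ)) *ᵥ
      (Pi.single L.v (1 : ℂ)) = Complex.I ^ D • Pi.single L.u (1 : ℂ) := by
  refine exp_transfer (L.G.adjMatrix ℂ) D (c : ℝ) (by exact_mod_cast hc) L.w ?_ ?_ ?_ L.u L.v
    (L.om L.u : ℂ) (by exact_mod_cast (L.hom L.u).ne') ?_ ?_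
  · funext x
    rw [mulVec_w, if_neg (by omega), zero_add, Pi.smul_apply, w, smul_eq_mul, mul_ite, mul_zero]
    by_cases h : L.lev x = 0 + 1
    · rw [if_pos h, if_pos (by omega), h]; push_cast; ring
    · rw [if_neg h, if_neg (by omega)]
  · intro n hn
    funext x
    rw [mulVec_w, Pi.add_apply, Pi.smul_apply, Pi.smul_apply, w, w, smul_eq_mul, smul_eq_mul]
    by_cases h : L.lev x = n
    · rw [if_pos (by omega), if_neg (by omega), if_neg (by omega), if_pos h, h]
      push_cast [Nat.cast_sub hn.le]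
      ring
    · by_cases h2 : L.lev x = n + 2
      · rw [if_neg (by omega), if_pos (by omega), if_pos h2, if_neg h, h2]
        push_cast
        ring
      · rw [if_neg (by omega), if_neg (by omega), if_neg h2, if_neg h]
        simp
  · funext x
    rw [w, if_neg]
    · rfl
    · have := L.hle x; omega
  · funext x
    rw [w, Pi.smul_apply, smul_eq_mul]
    by_cases h : x = L.u
    · subst h; rw [if_pos L.hu]; simp
    · rw [if_neg (fun h' => h (L.hu' x h')), Pi.single_eq_of_ne h, mul_zero]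
  · funext x
    rw [w, Pi.smul_apply, smul_eq_mul, L.huv]
    by_cases h : x = L.v
    · subst h; rw [if_pos L.hv]; simp
    · rw [if_neg (fun h' => h (L.hv' x h')), Pi.single_eq_of_ne h, mul_zero]

end Lvl

/-- the family, in terms of distance, diameter and matrix exponential -/
theorem family_dist (g : ℕ) (hg : 2 ≤ g) :
    ∃ (n : ℕ) (G : SimpleGraph (Fin n)) (_ : DecidableRel G.Adj) (u v : Fin n),
      G.Connected ∧ G.diam = g ^ 2 ∧ G.dist u v = g ^ 2 ∧ n ≤ 2 * (g ^ 2) ^ 5 ∧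
      (NormedSpace.exp ((Complex.I * ((Real.pi / (2 * ((g : ℝ) ^ 2)) : ℝ) : ℂ)) • G.adjMatrix ℂ)) *ᵥ
        (Pi.single u (1 : ℂ)) = Complex.I ^ (g ^ 2) • Pi.single v (1 : ℂ) := by
  classical
  have hpos : 0 < g ^ 2 := Nat.pow_pos (by omega)
  have : NeZero (g ^ 2 * g ^ 2) := ⟨(Nat.mul_pos hpos hpos).ne'⟩
  have hcard : Fintype.card (Vt g) ≤ 2 * (g ^ 2) ^ 5 := by
    rw [card_Vt]
    have h1 := allCells_card g hg
    have h2 : (allCells g).card * (g ^ 2 * g ^ 2) + 2 * (g ^ 2) ^ 4 ≤ 2 * (g ^ 2) ^ 5 := by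
      calc (allCells g).card * (g ^ 2 * g ^ 2) + 2 * (g ^ 2) ^ 4
          ≤ ((g ^ 2 - 1) * (g ^ 2 * (2 * g ^ 2))) * (g ^ 2 * g ^ 2) + 2 * (g ^ 2) ^ 4 :=
            Nat.add_le_add_right (Nat.mul_le_mul_right _ h1) _
        _ = 2 * (g ^ 2) ^ 4 * ((g ^ 2 - 1) + 1) := by ring
        _ = 2 * (g ^ 2) ^ 5 := by rw [Nat.sub_add_cancel hpos]; ring
    have h3 : 1 ≤ (g ^ 2) ^ 4 := Nat.one_le_iff_ne_zero.mpr (by positivity)
    omega
  let L := (lvl g hg).reindex (Fintype.equivFin (Vt g))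
  have hd := L.dist_eq hpos
  have he := @Lvl.exp_adj _ _ _ _ L hpos _ (Classical.decRel _)
  rw [Nat.cast_pow] at he
  refine ⟨_, L.G, Classical.decRel _, L.v, L.u, L.connected hpos, L.diam_eq hpos, ?_, hcard, he⟩
  rw [SimpleGraph.dist_comm]
  exact hd

end Pool.Agent.Pst
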