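import Mathlib

/-!
# Perfect state transfer from a Krawtchouk chain of vectors (MP_12e063_co)
-/

set_option autoImplicit false

open scoped BigOperators Matrix
open NormedSpace

namespace Pool.Agent.Pst

section abstract

variable {E : Type} [NormedAddCommGroup E] [NormedSpace ℂ E] [CompleteSpace E]

/-- power series of `ℓ (exp (s T) x)` -/
lemma exp_series_apply (T : E →L[ℂ] E) (s : ℂ) (x : E) (l : E →L[ℂ] ℂ) :
    l ((exp (s • T)) x) = ∑' m : ℕ, (s ^ m / (m.factorial : ℂ)) * l ((T ^ m) x) := by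
  have h := exp_series_hasSum_exp' (𝕂 := ℂ) (s • T)
  have h1 := (ContinuousLinearMap.apply ℂ E x).hasSum h
  have h2 := l.hasSum h1
  refine (h2.tsum_eq.symm.trans ?_)
  refine tsum_congr fun m => ?_
  show l ((((m.factorial : ℂ)⁻¹) • (s • T) ^ m) x) = _
  rw [smul_pow, smul_smul, smul_apply, map_smul, smul_eq_mul]
  ring

/-- the Krawtchouk solution of `φ' = T φ` -/
noncomputable def phi (D : ℕ) (c : ℂ) (w : ℕ → E) (s : ℂ) : E :=
  ∑ n ∈ Finset.range (D + 1),
    ((Complex.cosh (c * s)) ^ (D - n) * (Complex.sinh (c * s)) ^ n) • w n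

omit [CompleteSpace E] in
lemma phi_alg (T : E →L[ℂ] E) (D : ℕ) (c : ℂ) (w : ℕ → E)
    (h0 : T (w 0) = c • w 1)
    (hS : ∀ n, n < D → T (w (n + 1))
      = (c * ((n : ℂ) + 2)) • w (n + 2) + (c * ((D : ℂ) - (n : ℂ))) • w n)
    (hD : w (D + 1) = 0) (C S : ℂ) :
    (∑ n ∈ Finset.range (D + 1),
      ((((D - n : ℕ) : ℂ) * C ^ (D - n - 1) * (S * c)) * S ^ n
          + C ^ (D - n) * ((n : ℂ) * S ^ (n - 1) * (C * c))) • w n)
      = ∑ n ∈ Finset.range (D + 1), (C ^ (D - n) * S ^ n) • (T (w n)) := by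
  simp only [add_smul, Finset.sum_add_distrib]
  -- first part : down terms ; second part : up terms
  have e1 : ∑ n ∈ Finset.range (D + 1),
      ((((D - n : ℕ) : ℂ) * C ^ (D - n - 1) * (S * c)) * S ^ n) • w n
      = ∑ n ∈ Finset.range D, ((C ^ (D - (n + 1)) * S ^ (n + 1)) * (c * ((D : ℂ) - (n : ℂ)))) • w n := by
    rw [Finset.sum_range_succ]
    simp only [Nat.sub_self, Nat.cast_zero, zero_mul, zero_smul, add_zero]
    refine Finset.sum_congr rfl fun n hn => ?_
    have hn' : n < D := Finset.mem_range.mp hn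
    rw [Nat.cast_sub hn'.le, Nat.sub_sub]
    congr 1
    ring
  have e2 : ∑ n ∈ Finset.range (D + 1),
      (C ^ (D - n) * ((n : ℂ) * S ^ (n - 1) * (C * c))) • w n
      = ∑ n ∈ Finset.range D, ((C ^ (D - n) * S ^ n) * (c * ((n : ℂ) + 1))) • w (n + 1) := by
    rw [Finset.sum_range_succ']
    simp only [Nat.cast_zero, zero_mul, mul_zero, zero_smul, add_zero]
    refine Finset.sum_congr rfl fun n hn => ?_
    have hn' : n < D := Finset.mem_range.mp hn
    have hk : D - n = (D - (n + 1)) + 1 := by omega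
    congr 1
    rw [hk, Nat.add_sub_cancel]
    push_cast
    ring
  rw [e1, e2, Finset.sum_range_succ' (fun n => (C ^ (D - n) * S ^ n) • (T (w n)))]
  have e3 : ∀ n ∈ Finset.range D, (C ^ (D - (n + 1)) * S ^ (n + 1)) • (T (w (n + 1)))
      = ((C ^ (D - (n + 1)) * S ^ (n + 1)) * (c * ((n : ℂ) + 2))) • w (n + 2)
        + ((C ^ (D - (n + 1)) * S ^ (n + 1)) * (c * ((D : ℂ) - (n : ℂ)))) • w n := by
    intro n hn
    rw [hS n (Finset.mem_range.mp hn), smul_add, smul_smul, smul_smul]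
  rw [Finset.sum_congr rfl e3, Finset.sum_add_distrib, h0, smul_smul]
  have e4 : ∑ n ∈ Finset.range D, ((C ^ (D - n) * S ^ n) * (c * ((n : ℂ) + 1))) • w (n + 1)
      = ∑ n ∈ Finset.range D,
          ((C ^ (D - (n + 1)) * S ^ (n + 1)) * (c * ((n : ℂ) + 2))) • w (n + 2)
        + (C ^ (D - 0) * S ^ 0 * c) • w 1 := by
    have e5 : ∑ n ∈ Finset.range (D + 1), ((C ^ (D - n) * S ^ n) * (c * ((n : ℂ) + 1))) • w (n + 1)
        = ∑ n ∈ Finset.range D, ((C ^ (D - n) * S ^ n) * (c * ((n : ℂ) + 1))) • w (n + 1) := by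
      rw [Finset.sum_range_succ, hD, smul_zero, add_zero]
    rw [← e5, Finset.sum_range_succ']
    congr 1
    · refine Finset.sum_congr rfl fun n _ => ?_
      congr 1
      push_cast
      ring
    · congr 1
      push_cast
      ring
  rw [e4]
  abel

omit [CompleteSpace E] in
lemma phi_hasDerivAt (T : E →L[ℂ] E) (D : ℕ) (c : ℂ) (w : ℕ → E)
    (h0 : T (w 0) = c • w 1)
    (hS : ∀ n, n < D → T (w (n + 1))
      = (c * ((n : ℂ) + 2)) • w (n + 2) + (c * ((D : ℂ) - (n : ℂ))) • w n)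
    (hD : w (D + 1) = 0) (s : ℂ) :
    HasDerivAt (phi D c w) (T (phi D c w s)) s := by
  set C := Complex.cosh (c * s) with hC
  set S := Complex.sinh (c * s) with hSdef
  have hcs : HasDerivAt (fun z : ℂ => c * z) c s := by
    simpa using (hasDerivAt_id s).const_mul c
  have hCd : HasDerivAt (fun z : ℂ => Complex.cosh (c * z)) (S * c) s :=
    (Complex.hasDerivAt_cosh (c * s)).comp s hcs
  have hSd : HasDerivAt (fun z : ℂ => Complex.sinh (c * z)) (C * c) s :=
    (Complex.hasDerivAt_sinh (c * s)).comp s hcs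
  have hterm : ∀ n ∈ Finset.range (D + 1),
      HasDerivAt (fun z : ℂ => ((Complex.cosh (c * z)) ^ (D - n) * (Complex.sinh (c * z)) ^ n) • w n)
        (((((D - n : ℕ) : ℂ) * C ^ (D - n - 1) * (S * c)) * S ^ n
          + C ^ (D - n) * ((n : ℂ) * S ^ (n - 1) * (C * c))) • w n) s := by
    intro n _
    exact ((hCd.pow (D - n)).mul (hSd.pow n)).smul_const (w n)
  have hsum := HasDerivAt.fun_sum hterm
  have hA : T (phi D c w s) = ∑ n ∈ Finset.range (D + 1), (C ^ (D - n) * S ^ n) • (T (w n)) := by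
    rw [phi, map_sum]
    refine Finset.sum_congr rfl fun n _ => ?_
    rw [map_smul]
  rw [hA, ← phi_alg T D c w h0 hS hD C S]
  exact hsum

theorem exp_phi (T : E →L[ℂ] E) (D : ℕ) (c : ℂ) (w : ℕ → E)
    (h0 : T (w 0) = c • w 1)
    (hS : ∀ n, n < D → T (w (n + 1))
      = (c * ((n : ℂ) + 2)) • w (n + 2) + (c * ((D : ℂ) - (n : ℂ))) • w n)
    (hD : w (D + 1) = 0) (s : ℂ) :
    (exp (s • T)) (phi D c w (-s)) = w 0 := by
  have hder : ∀ z : ℂ, HasDerivAt (fun z : ℂ => (exp (z • T)) (phi D c w (-z))) 0 z := by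
    intro z
    have h1 := hasDerivAt_exp_smul_const (𝕂 := ℂ) T z
    have h2 : HasDerivAt (fun z : ℂ => phi D c w (-z)) ((-1 : ℂ) • (T (phi D c w (-z)))) z :=
      (phi_hasDerivAt T D c w h0 hS hD (-z)).scomp z (hasDerivAt_neg z)
    have h3 := h1.clm_apply h2
    have h4 : (exp (z • T) * T) (phi D c w (-z))
        + (exp (z • T)) ((-1 : ℂ) • (T (phi D c w (-z)))) = 0 := by
      rw [map_smul, neg_one_smul]
      exact add_neg_cancel _
    rw [← h4]
    exact h3
  have hdiff : Differentiable ℂ (fun z : ℂ => (exp (z • T)) (phi D c w (-z))) :=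
    fun z => (hder z).differentiableAt
  have hconst := is_const_of_deriv_eq_zero hdiff (fun z => (hder z).deriv) s 0
  refine hconst.trans ?_
  simp [phi, Finset.sum_range_succ']

end abstract

section matrix

variable {V : Type} [Fintype V] [DecidableEq V]

/-- the operator of a matrix -/
noncomputable def opL (A : Matrix V V ℂ) : (V → ℂ) →L[ℂ] (V → ℂ) :=
  LinearMap.toContinuousLinearMap (Matrix.toLin' A)

lemma opL_apply (A : Matrix V V ℂ) (x : V → ℂ) : opL A x = A *ᵥ x := by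
  simp [opL]

lemma opL_pow_apply (A : Matrix V V ℂ) (m : ℕ) (x : V → ℂ) :
    ((opL A) ^ m) x = (A ^ m) *ᵥ x := by
  induction m generalizing x with
  | zero => simp
  | succ m ih =>
    rw [pow_succ, pow_succ, mul_apply_eq_comp, ih, opL_apply, Matrix.mulVec_mulVec]

/-- the transfer, entry form -/
theorem entry_norm (A : Matrix V V ℂ) (D : ℕ) (c : ℝ) (hc : 0 < c) (w : ℕ → V → ℂ)
    (h0 : A *ᵥ w 0 = (c : ℂ) • w 1)
    (hS : ∀ n, n < D → A *ᵥ w (n + 1)
      = ((c : ℂ) * ((n : ℂ) + 2)) • w (n + 2) + ((c : ℂ) * ((D : ℂ) - (n : ℂ))) • w n)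
    (hD : w (D + 1) = 0) (u v : V) (κ : ℂ) (hκ : κ ≠ 0)
    (hu : w 0 = κ • Pi.single u (1 : ℂ)) (hv : w D = κ • Pi.single v (1 : ℂ)) :
    ‖∑' m : ℕ, ((-((-(Real.pi / (2 * c)) : ℝ) : ℂ) * Complex.I) ^ m / (m.factorial : ℂ)) *
        (A ^ m) u v‖ = 1 := by
  set s : ℂ := -((-(Real.pi / (2 * c)) : ℝ) : ℂ) * Complex.I with hs
  have hcC : (c : ℂ) ≠ 0 := by exact_mod_cast hc.ne'
  have hcs : (c : ℂ) * (-s) = -((Real.pi / 2 : ℂ) * Complex.I) := by
    rw [hs]; push_cast; field_simp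
  have key := exp_phi (opL A) D (c : ℂ) w (by rw [opL_apply]; exact h0)
    (fun n hn => by rw [opL_apply]; exact hS n hn) hD s
  have hcosh : Complex.cosh ((c : ℂ) * (-s)) = 0 := by
    rw [hcs, Complex.cosh_neg, Complex.cosh_mul_I, Complex.cos_pi_div_two]
  have hsinh : Complex.sinh ((c : ℂ) * (-s)) = -Complex.I := by
    rw [hcs, Complex.sinh_neg, Complex.sinh_mul_I, Complex.sin_pi_div_two, one_mul]
  have hphi : phi D (c : ℂ) w (-s) = ((-Complex.I) ^ D * κ) • Pi.single v (1 : ℂ) := by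
    rw [phi, hcosh, hsinh, Finset.sum_range_succ, Finset.sum_eq_zero, zero_add, Nat.sub_self,
      pow_zero, one_mul, hv, smul_smul]
    intro n hn
    have : D - n ≠ 0 := by have := Finset.mem_range.mp hn; omega
    rw [zero_pow this, zero_mul, zero_smul]
  rw [hphi, map_smul, hu] at key
  have key2 := congrFun key u
  simp only [Pi.smul_apply, smul_eq_mul, Pi.single_eq_same, mul_one] at key2
  have hent := exp_series_apply (opL A) s (Pi.single v (1 : ℂ))
    (ContinuousLinearMap.proj (R := ℂ) (φ := fun _ : V => ℂ) u)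
  simp only [ContinuousLinearMap.proj_apply, opL_pow_apply, Matrix.mulVec_single_one,
    Matrix.col_apply] at hent
  rw [← hent]
  have hn : ‖(-Complex.I) ^ D‖ = 1 := by simp
  have key3 := congrArg norm key2
  rw [norm_mul, norm_mul, hn, one_mul] at key3
  have hκ' : ‖κ‖ ≠ 0 := by simpa using hκ
  exact mul_left_cancel₀ hκ' (by rw [key3, mul_one])

end matrix

end Pool.Agent.Pst
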