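import Pool.Agent.Pst.Exp

/-!
# Levelled graphs with a Krawtchouk weight (MP_12e063_co)
-/

set_option autoImplicit false

open scoped BigOperators Matrix

namespace Pool.Agent.Pst

/-- A levelled relation on a finite type with positive weights, whose weighted up and down degrees
are those of the `D`-cube, scaled by `c`. -/
structure Lvl (V : Type) [Fintype V] (D c : ℕ) where
  R : V → V → Prop
  decR : DecidableRel R
  lev : V → ℕ
  om : V → ℕ
  u : V
  v : V
  hR : ∀ x y, R x y → lev y = lev x + 1
  hle : ∀ x, lev x ≤ D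
  hom : ∀ x, 0 < om x
  up : ∀ x, ∑ y, (if R x y then om y else 0) = c * (D - lev x) * om x
  down : ∀ x, ∑ y, (if R y x then om y else 0) = c * lev x * om x
  hu : lev u = 0
  hu' : ∀ x, lev x = 0 → x = u
  hv : lev v = D
  hv' : ∀ x, lev x = D → x = v
  huv : om u = om v

namespace Lvl

variable {V : Type} [Fintype V] {D c : ℕ} (L : Lvl V D c)

instance : DecidableRel L.R := L.decR

/-- the graph -/
def G : SimpleGraph V := SimpleGraph.fromRel L.R

lemma adj_iff (x y : V) : L.G.Adj x y ↔ (L.R x y ∨ L.R y x) := by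
  rw [G, SimpleGraph.fromRel_adj]
  constructor
  · exact fun h => h.2
  · intro h
    refine ⟨?_, h⟩
    rintro rfl
    rcases h with h | h <;> exact absurd (L.hR _ _ h) (by omega)

lemma not_both (x y : V) (h : L.R x y) : ¬ L.R y x := by
  intro h'
  have h1 := L.hR _ _ h
  have h2 := L.hR _ _ h'
  omega

lemma exists_below (hc : 0 < c) (x : V) (hx : L.lev x ≠ 0) :
    ∃ y, L.R y x ∧ L.lev y < L.lev x := by
  by_contra hcon
  push Not at hcon
  have h := L.down x
  rw [Finset.sum_eq_zero] at h
  · have : 0 < c * L.lev x * L.om x :=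
      Nat.mul_pos (Nat.mul_pos hc (Nat.pos_of_ne_zero hx)) (L.hom x)
    omega
  · intro y _
    rw [if_neg]
    intro hy
    have h1 := hcon y hy
    have h2 := L.hR _ _ hy
    omega

lemma reach (hc : 0 < c) (x : V) : L.G.Reachable L.u x := by
  induction hn : L.lev x using Nat.strong_induction_on generalizing x with
  | _ n ih =>
    by_cases h0 : L.lev x = 0
    · rw [L.hu' x h0]
    · obtain ⟨y, hy, hlt⟩ := L.exists_below hc x h0
      have h1 := ih (L.lev y) (by omega) y rfl
      exact h1.trans ((L.adj_iff y x).mpr (Or.inl hy)).reachable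

lemma connected (hc : 0 < c) : L.G.Connected := by
  have : Nonempty V := ⟨L.u⟩
  exact SimpleGraph.Connected.mk (fun x y => (L.reach hc x).symm.trans (L.reach hc y))

lemma lev_le_walk {x y : V} (p : L.G.Walk x y) : L.lev y ≤ L.lev x + p.length := by
  induction p with
  | nil => simp
  | cons h p ih =>
    rw [SimpleGraph.Walk.length_cons]
    rcases (L.adj_iff _ _).mp h with h' | h'
    · have := L.hR _ _ h'
      omega
    · have := L.hR _ _ h'
      omega

lemma le_dist (hc : 0 < c) : D ≤ L.G.dist L.u L.v := by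
  obtain ⟨p, hp⟩ := (L.connected hc).exists_walk_length_eq_dist L.u L.v
  have := L.lev_le_walk p
  rw [L.hu, L.hv, hp] at this
  omega

lemma le_diam (hc : 0 < c) : D ≤ L.G.diam := by
  have : Nonempty V := ⟨L.u⟩
  refine (L.le_dist hc).trans (SimpleGraph.dist_le_diam ?_)
  exact SimpleGraph.connected_iff_ediam_ne_top.mp (L.connected hc)

/-- the level vectors -/
noncomputable def w (n : ℕ) (x : V) : ℂ := if L.lev x = n then (L.om x : ℂ) else 0

variable [DecidableEq V]

omit [DecidableEq V] in
lemma mulVec_w [DecidableRel L.G.Adj] (n : ℕ) (x : V) :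
    (L.G.adjMatrix ℂ *ᵥ L.w n) x
      = (if L.lev x + 1 = n then ((c * (D - L.lev x) * L.om x : ℕ) : ℂ) else 0)
        + (if L.lev x = n + 1 then ((c * L.lev x * L.om x : ℕ) : ℂ) else 0) := by
  rw [Matrix.mulVec, dotProduct]
  have h1 : ∀ y, L.G.adjMatrix ℂ x y * L.w n y
      = (if L.lev x + 1 = n then (if L.R x y then (L.om y : ℂ) else 0) else 0)
        + (if L.lev x = n + 1 then (if L.R y x then (L.om y : ℂ) else 0) else 0) := by
    intro y
    rw [SimpleGraph.adjMatrix_apply, w]
    by_cases h : L.R x y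
    · have h' := L.not_both x y h
      have hl := L.hR _ _ h
      have ha : L.G.Adj x y := (L.adj_iff x y).mpr (Or.inl h)
      simp only [ha, h, h', if_true, if_false, one_mul, ite_self, add_zero]
      by_cases hn : L.lev x + 1 = n
      · rw [if_pos (by omega), if_pos hn]
      · rw [if_neg (by omega), if_neg hn]
    · by_cases h' : L.R y x
      · have hl := L.hR _ _ h'
        have ha : L.G.Adj x y := (L.adj_iff x y).mpr (Or.inr h')
        simp only [ha, h, h', if_true, if_false, one_mul, ite_self, zero_add]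
        by_cases hn : L.lev x = n + 1
        · rw [if_pos (by omega), if_pos hn]
        · rw [if_neg (by omega), if_neg hn]
      · have ha : ¬ L.G.Adj x y := by rw [L.adj_iff]; tauto
        simp [ha, h, h']
  rw [Finset.sum_congr rfl fun y _ => h1 y, Finset.sum_add_distrib]
  congr 1
  · by_cases hn : L.lev x + 1 = n
    · simp only [hn, if_true]
      rw [← L.up x]
      push_cast
      rfl
    · simp [hn]
  · by_cases hn : L.lev x = n + 1
    · simp only [hn, if_true]
      rw [← hn, ← L.down x]
      push_cast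
      rfl
    · simp [hn]

theorem transfer (hc : 0 < c) [DecidableRel L.G.Adj] :
    ∃ t : ℝ, ‖∑' m : ℕ, ((-(t : ℂ) * Complex.I) ^ m / (m.factorial : ℂ)) *
            ((L.G.adjMatrix ℂ) ^ m) L.u L.v‖ = 1 := by
  refine ⟨-(Real.pi / (2 * (c : ℝ))), ?_⟩
  refine entry_norm (L.G.adjMatrix ℂ) D (c : ℝ) (by exact_mod_cast hc) L.w ?_ ?_ ?_ L.u L.v
    (L.om L.u : ℂ) (by exact_mod_cast (L.hom L.u).ne') ?_ ?_
  · funext x
    rw [mulVec_w, if_neg (by omega), zero_add, Pi.smul_apply, w, smul_eq_mul, mul_ite, mul_zero]
    by_cases h : L.lev x = 0 + 1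
    · rw [if_pos h, if_pos (by omega), h]; push_cast; ring
    · rw [if_neg h, if_neg (by omega)]
  · intro n hn
    funext x
    rw [mulVec_w, Pi.add_apply, Pi.smul_apply, Pi.smul_apply, w, w, smul_eq_mul, smul_eq_mul]
    by_cases h : L.lev x = n
    · rw [if_pos (by omega), if_neg (by omega), if_neg (by omega), if_pos h, h]
      push_cast [Nat.cast_sub hn.le]
      ring
    · by_cases h2 : L.lev x = n + 2
      · rw [if_neg (by omega), if_pos (by omega), if_pos h2, if_neg h, h2]
        push_cast
        ring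
      · rw [if_neg (by omega), if_neg (by omega), if_neg h2, if_neg h]
        simp
  · funext x
    rw [w, if_neg]
    · rfl
    · have := L.hle x; omega
  · funext x
    rw [w, Pi.smul_apply, smul_eq_mul]
    by_cases h : x = L.u
    · subst h; rw [if_pos L.hu]; simp
    · rw [if_neg (fun h' => h (L.hu' x h')), Pi.single_eq_of_ne h, mul_zero]
  · funext x
    rw [w, Pi.smul_apply, smul_eq_mul, L.huv]
    by_cases h : x = L.v
    · subst h; rw [if_pos L.hv]; simp
    · rw [if_neg (fun h' => h (L.hv' x h')), Pi.single_eq_of_ne h, mul_zero]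

/-- transport to another finite type -/
noncomputable def reindex {W : Type} [Fintype W] (e : V ≃ W) : Lvl W D c where
  R := fun i j => L.R (e.symm i) (e.symm j)
  decR := fun i j => L.decR (e.symm i) (e.symm j)
  lev := fun i => L.lev (e.symm i)
  om := fun i => L.om (e.symm i)
  u := e L.u
  v := e L.v
  hR := fun x y h => L.hR _ _ h
  hle := fun x => L.hle _
  hom := fun x => L.hom _
  up := by
    intro x
    have := L.up (e.symm x)
    rw [← this]
    exact Equiv.sum_comp e.symm (fun y => if L.R (e.symm x) y then L.om y else 0)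
  down := by
    intro x
    have := L.down (e.symm x)
    rw [← this]
    exact Equiv.sum_comp e.symm (fun y => if L.R y (e.symm x) then L.om y else 0)
  hu := by simp [L.hu]
  hu' := fun x h => by rw [← L.hu' _ h]; simp
  hv := by simp [L.hv]
  hv' := fun x h => by rw [← L.hv' _ h]; simp
  huv := by simp [L.huv]

omit [DecidableEq V] in
/-- the conclusion in the form of the frozen statement -/
theorem main (L : Lvl V D c) (hc : 0 < c) (hD : 0 < D) (C k : ℕ) (hcard : Fintype.card V ≤ C * D ^ k) :
    ∃ (G : SimpleGraph (Fin (Fintype.card V))) (_ : DecidableRel G.Adj),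
      G.Connected ∧ Fintype.card V ≤ C * G.diam ^ k ∧
      ∃ (u v : Fin (Fintype.card V)) (t : ℝ), u ≠ v ∧
        ‖∑' m : ℕ, ((-(t : ℂ) * Complex.I) ^ m / (m.factorial : ℂ)) *
            ((G.adjMatrix ℂ) ^ m) u v‖ = 1 := by
  classical
  let L' := L.reindex (Fintype.equivFin V)
  refine ⟨L'.G, Classical.decRel _, L'.connected hc, ?_, ?_⟩
  · exact hcard.trans (Nat.mul_le_mul_left C (Nat.pow_le_pow_left (L'.le_diam hc) k))
  · obtain ⟨t, ht⟩ := @transfer _ _ _ _ L' _ hc (Classical.decRel _)
    refine ⟨L'.u, L'.v, t, ?_, ht⟩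
    intro h
    have h1 := L'.hu
    have h2 := L'.hv
    rw [← h, h1] at h2
    omega

end Lvl

end Pool.Agent.Pst
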